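import Pool.Agent.H275R3.ShPack

/-!
# Fillings of embedded shells, at any scale and in any target
-/

open Set Metric MeasureTheory Filter
open scoped ContDiff Topology RealInnerProductSpace ENNReal

noncomputable section

set_option linter.unusedSectionVars false

namespace Pool.Agent.Y267.SP

open Pool.Agent.H275R3.Sh

variable {V : Type*} [NormedAddCommGroup V] [InnerProductSpace ℝ V] [FiniteDimensional ℝ V]

lemma mem_shell_smul {R r₀ r₁ : ℝ} (hR : 0 < R) {z : V} (hz : z ∈ shell V (r₀ / R) (r₁ / R)) :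
    R • z ∈ shell V r₀ r₁ := by
  obtain ⟨h1, h2⟩ := hz
  rw [div_lt_iff₀ hR] at h1
  rw [lt_div_iff₀ hR] at h2
  refine ⟨?_, ?_⟩ <;> rw [norm_smul, Real.norm_eq_abs, abs_of_pos hR] <;> linarith

lemma mem_shell_smul' {R r₀ r₁ : ℝ} (hR : 0 < R) {z : V} (hz : z ∈ shell V r₀ r₁) :
    R⁻¹ • z ∈ shell V (r₀ / R) (r₁ / R) := by
  obtain ⟨h1, h2⟩ := hz
  refine ⟨?_, ?_⟩
  · rw [norm_smul, norm_inv, Real.norm_eq_abs, abs_of_pos hR, div_eq_inv_mul]
    exact mul_lt_mul_of_pos_left h1 (inv_pos.2 hR)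
  · rw [norm_smul, norm_inv, Real.norm_eq_abs, abs_of_pos hR, div_eq_inv_mul]
    exact mul_lt_mul_of_pos_left h2 (inv_pos.2 hR)

lemma scaled_smooth {R r₀ r₁ : ℝ} (hR : 0 < R) {φ : V → V}
    (hφ : ContDiffOn ℝ ∞ φ (shell V r₀ r₁)) :
    ContDiffOn ℝ ∞ (fun z => R⁻¹ • φ (R • z)) (shell V (r₀ / R) (r₁ / R)) := by
  have h1 : ContDiffOn ℝ ∞ (fun z => φ (R • z)) (shell V (r₀ / R) (r₁ / R)) :=
    hφ.comp (contDiff_const_smul R).contDiffOn (fun z hz => mem_shell_smul hR hz)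
  exact h1.const_smul R⁻¹

lemma scaled_fderiv {R r₀ r₁ : ℝ} (hR : 0 < R) {φ : V → V}
    (hφ : ContDiffOn ℝ ∞ φ (shell V r₀ r₁)) {z : V} (hz : z ∈ shell V (r₀ / R) (r₁ / R)) (u : V) :
    fderiv ℝ (fun z => R⁻¹ • φ (R • z)) z u = fderiv ℝ φ (R • z) u := by
  have h1 : DifferentiableAt ℝ φ (R • z) :=
    (hφ.contDiffAt ((isOpen_shell r₀ r₁).mem_nhds (mem_shell_smul hR hz))).differentiableAt (by simp)
  have h2 : HasFDerivAt (fun z : V => R • z) (R • ContinuousLinearMap.id ℝ V) z :=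
    (hasFDerivAt_id z).const_smul R
  have h3 : HasFDerivAt (fun z : V => φ (R • z))
      ((fderiv ℝ φ (R • z)).comp (R • ContinuousLinearMap.id ℝ V)) z :=
    HasFDerivAt.comp z (f := fun z : V => R • z) h1.hasFDerivAt h2
  have h4 := h3.const_smul R⁻¹
  have h5 : HasFDerivAt (fun z : V => R⁻¹ • φ (R • z)) _ z := h4
  rw [h5.fderiv]
  simp only [ContinuousLinearMap.comp_smul, ContinuousLinearMap.comp_id, smul_smul,
    inv_mul_cancel₀ hR.ne', one_smul]

lemma scaled_symp {R r₀ r₁ : ℝ} (hR : 0 < R) {φ : V → V} {J : V →L[ℝ] V}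
    (hφ : ContDiffOn ℝ ∞ φ (shell V r₀ r₁)) (hs : SympOn J φ (shell V r₀ r₁)) :
    SympOn J (fun z => R⁻¹ • φ (R • z)) (shell V (r₀ / R) (r₁ / R)) := by
  intro z hz u v
  rw [scaled_fderiv hR hφ hz, scaled_fderiv hR hφ hz]
  exact hs _ (mem_shell_smul hR hz) u v

lemma scaled_inj {R r₀ r₁ : ℝ} (hR : 0 < R) {φ : V → V} (hinj : InjOn φ (shell V r₀ r₁)) :
    InjOn (fun z => R⁻¹ • φ (R • z)) (shell V (r₀ / R) (r₁ / R)) := by
  intro z hz w hw h
  have h1 : φ (R • z) = φ (R • w) := smul_right_injective V (inv_ne_zero hR.ne') h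
  have h2 := hinj (mem_shell_smul hR hz) (mem_shell_smul hR hw) h1
  exact smul_right_injective V hR.ne' h2

omit [FiniteDimensional ℝ V] in
lemma cut_scale {R s₀ s₁ : ℝ} (hR : 0 < R) (x : V) :
    cut (s₀ / R) (s₁ / R) (R⁻¹ • x) = cut s₀ s₁ x := by
  unfold cut
  congr 1
  rw [norm_smul, norm_inv, Real.norm_eq_abs, abs_of_pos hR]
  have hR2 : R ^ 2 ≠ 0 := by positivity
  have e1 : (s₁ / R) ^ 2 - (R⁻¹ * ‖x‖) ^ 2 = (s₁ ^ 2 - ‖x‖ ^ 2) / R ^ 2 := by
    field_simp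
  have e2 : (s₁ / R) ^ 2 - (s₀ / R) ^ 2 = (s₁ ^ 2 - s₀ ^ 2) / R ^ 2 := by
    field_simp
  rw [e1, e2, div_div_div_cancel_right₀ hR2]

variable [MeasurableSpace V] [BorelSpace V]

/-- The fillings of finitely many disjoint embedded shells. -/
structure Filling {k : ℕ} (φ : Fin k → V → V) (r₀ r₁ s₀ s₁ : ℝ) (F : Fin k → V → ℝ) : Prop where
  cont : ∀ i, Continuous (F i)
  cs : ∀ i, HasCompactSupport (F i)
  nonneg : ∀ i x, 0 ≤ F i x
  le_one : ∀ i x, F i x ≤ 1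
  off : ∀ i x, x ∉ φ i '' shell V r₀ r₁ → F i x = 0 ∨ F i x = 1
  dis : ∀ i j, i ≠ j → ∀ x, F i x = 0 ∨ F j x = 0
  int : ∀ i, ∫ x, F i x = ∫ x : V, cut s₀ s₁ x

theorem exists_filling {J : V →L[ℝ] V} (hJ : IsJ J) (hdim : 3 ≤ Module.finrank ℝ V) {k : ℕ}
    {φ : Fin k → V → V} {r₀ r₁ s₀ s₁ : ℝ} (h0 : 0 < r₀) (h01 : r₀ < s₀) (hs01 : s₀ < s₁)
    (h12 : s₁ < r₁)
    (hφ : ∀ i, ContDiffOn ℝ ∞ (φ i) (shell V r₀ r₁)) (hinj : ∀ i, InjOn (φ i) (shell V r₀ r₁))
    (hs : ∀ i, SympOn J (φ i) (shell V r₀ r₁))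
    (hd : ∀ i j, i ≠ j → Disjoint (φ i '' shell V r₀ r₁) (φ j '' shell V r₀ r₁)) :
    ∃ F : Fin k → V → ℝ, Filling φ r₀ r₁ s₀ s₁ F := by
  set a := (r₀ + s₀) / 2 with ha
  set b := (s₁ + r₁) / 2 with hb
  have a0 : 0 < a := by rw [ha]; linarith
  have a1 : r₀ < a := by rw [ha]; linarith
  have a2 : a < s₀ := by rw [ha]; linarith
  have b1 : s₁ < b := by rw [hb]; linarith
  have b2 : b < r₁ := by rw [hb]; linarith
  have hsub : shell V a b ⊆ shell V r₀ r₁ := fun z hz => ⟨a1.trans hz.1, hz.2.trans b2⟩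
  have hC : IsCompact {z : V | ‖z‖ ∈ Icc a b} := by
    refine Metric.isCompact_of_isClosed_isBounded (isClosed_Icc.preimage continuous_norm) ?_
    refine (Metric.isBounded_closedBall (x := (0 : V)) (r := b)).subset ?_
    intro z hz
    rw [mem_closedBall_zero_iff]; exact hz.2
  have hCU : {z : V | ‖z‖ ∈ Icc a b} ⊆ shell V r₀ r₁ :=
    fun z hz => ⟨by linarith [hz.1], by linarith [hz.2]⟩
  have hbd : ∀ i, ∃ R : ℝ, ∀ z ∈ shell V a b, ‖φ i z‖ ≤ R := by
    intro i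
    obtain ⟨R, hR⟩ := (hC.image_of_continuousOn ((hφ i).continuousOn.mono hCU)).isBounded.exists_norm_le
    exact ⟨R, fun z hz => hR _ ⟨z, ⟨hz.1.le, hz.2.le⟩, rfl⟩⟩
  choose Ri hRi using hbd
  set R : ℝ := 1 + ∑ i, |Ri i| with hRdef
  have hR : 0 < R := by
    have : 0 ≤ ∑ i, |Ri i| := Finset.sum_nonneg fun i _ => abs_nonneg _
    linarith
  have hRlt : ∀ i, Ri i < R := by
    intro i
    have h1 : |Ri i| ≤ ∑ i, |Ri i| :=
      Finset.single_le_sum (f := fun i => |Ri i|) (fun i _ => abs_nonneg _) (Finset.mem_univ i)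
    have h2 := le_abs_self (Ri i)
    linarith
  set ψ : Fin k → V → V := fun i z => R⁻¹ • φ i (R • z) with hψ
  have hφ' : ∀ i, ContDiffOn ℝ ∞ (φ i) (shell V a b) := fun i => (hφ i).mono hsub
  have hinj' : ∀ i, InjOn (φ i) (shell V a b) := fun i => (hinj i).mono hsub
  have hs' : ∀ i, SympOn J (φ i) (shell V a b) := fun i z hz => hs i z (hsub hz)
  have hψmaps : ∀ i, MapsTo (ψ i) (shell V (a / R) (b / R)) (ball 0 1) := by
    intro i z hz
    have h1 := hRi i _ (mem_shell_smul hR hz)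
    rw [mem_ball_zero_iff]
    simp only [hψ]
    rw [norm_smul, norm_inv, Real.norm_eq_abs, abs_of_pos hR, inv_mul_lt_iff₀ hR, mul_one]
    exact h1.trans_lt (hRlt i)
  have hψc : ∀ i, ContDiffOn ℝ ∞ (ψ i) (shell V (a / R) (b / R)) :=
    fun i => scaled_smooth hR (hφ' i)
  have c1 : a / R < s₀ / R := div_lt_div_of_pos_right a2 hR
  have c2 : s₀ / R < s₁ / R := div_lt_div_of_pos_right hs01 hR
  have c3 : s₁ / R < b / R := div_lt_div_of_pos_right b1 hR
  have c0 : 0 < a / R := div_pos a0 hR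
  have himg : ∀ i x, x ∈ ψ i '' shell V (a / R) (b / R) → R • x ∈ φ i '' shell V a b := by
    rintro i x ⟨z, hz, rfl⟩
    refine ⟨R • z, mem_shell_smul hR hz, ?_⟩
    simp only [hψ]
    rw [smul_smul, mul_inv_cancel₀ hR.ne', one_smul]
  have hψd : ∀ i j, i ≠ j → Disjoint (ψ i '' shell V (a / R) (b / R))
      (ψ j '' shell V (a / R) (b / R)) := by
    intro i j hij
    rw [Set.disjoint_left]
    intro x hx hy
    exact Set.disjoint_left.1 (hd i j hij) (image_mono hsub (himg i x hx))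
      (image_mono hsub (himg j x hy))
  choose f hf hfc hfi using fun i => exists_fill hJ hdim c0 c1 c2 c3 (hψc i)
    (scaled_inj hR (hinj' i)) (scaled_symp hR (hφ' i) (hs' i)) (hψmaps i)
  refine ⟨fun i x => f i (R⁻¹ • x), ?_, ?_, ?_, ?_, ?_, ?_, ?_⟩
  · intro i
    exact (hf i).cont.comp (continuous_const_smul _)
  · intro i
    refine HasCompactSupport.intro (isCompact_closedBall (0 : V) R) ?_
    intro z hz
    rw [mem_closedBall_zero_iff, not_le] at hz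
    apply (hf i).out
    rw [norm_smul, norm_inv, Real.norm_eq_abs, abs_of_pos hR, le_inv_mul_iff₀ hR, mul_one]
    exact hz.le
  · intro i x; exact (hf i).nonneg _
  · intro i x; exact (hf i).le_one _
  · intro i x hx
    apply (hf i).off
    intro h
    apply hx
    have := himg i _ h
    rw [smul_smul, mul_inv_cancel₀ hR.ne', one_smul] at this
    exact image_mono hsub this
  · intro i j hij x
    exact disjoint_fill hdim c0 c1 c2 c3 (hf i) (hf j) (hfc i) (hfc j) (by rw [hfi, hfi])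
      (hψc i).continuousOn (hψc j).continuousOn (hψd i j hij) _
  · intro i
    have e1 : ∫ x : V, cut s₀ s₁ x = ∫ x : V, cut (s₀ / R) (s₁ / R) (R⁻¹ • x) := by
      congr 1
      funext x
      rw [cut_scale hR]
    rw [e1, Measure.integral_comp_inv_smul volume (f i),
      Measure.integral_comp_inv_smul volume (cut (s₀ / R) (s₁ / R)), hfi]

end Pool.Agent.Y267.SP
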