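import Pool.Agent.Y267.SP.A

/-!
# Disjoint embedded shells: the volume bound
-/

open Set Metric MeasureTheory Filter
open scoped ContDiff Topology RealInnerProductSpace ENNReal

noncomputable section

set_option linter.unusedSectionVars false

namespace Pool.Agent.Y267.SP

open Pool.Agent.H275R3.Sh

variable {V : Type*} [NormedAddCommGroup V] [InnerProductSpace ℝ V] [FiniteDimensional ℝ V]
variable [MeasurableSpace V] [BorelSpace V]

lemma cut_le_one (s₀ s₁ : ℝ) (z : V) : cut s₀ s₁ z ≤ 1 := Real.smoothTransition.le_one _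

lemma cut_nonneg (s₀ s₁ : ℝ) (z : V) : 0 ≤ cut s₀ s₁ z := Real.smoothTransition.nonneg _

lemma lint_cut_le {s₀ s₁ : ℝ} (h0 : 0 < s₀) (h1 : s₀ < s₁) :
    ∫⁻ x : V, ENNReal.ofReal (cut s₀ s₁ x) ≤ volume (ball (0 : V) s₁) := by
  calc ∫⁻ x : V, ENNReal.ofReal (cut s₀ s₁ x)
      ≤ ∫⁻ x : V, (ball (0 : V) s₁).indicator (fun _ => (1 : ℝ≥0∞)) x := by
        apply lintegral_mono
        intro x
        by_cases hx : x ∈ ball (0 : V) s₁
        · rw [indicator_of_mem hx]
          simpa using ENNReal.ofReal_le_ofReal (cut_le_one s₀ s₁ x)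
        · rw [indicator_of_notMem hx]
          rw [mem_ball_zero_iff, not_lt] at hx
          simp only
          rw [cut_zero h0 h1 hx]
          simp
    _ = volume (ball (0 : V) s₁) := by
        rw [lintegral_indicator measurableSet_ball]; simp

lemma le_lint_cut {s₀ s₁ : ℝ} (h0 : 0 < s₀) (h1 : s₀ < s₁) :
    volume (ball (0 : V) s₀) ≤ ∫⁻ x : V, ENNReal.ofReal (cut s₀ s₁ x) := by
  calc volume (ball (0 : V) s₀)
      = ∫⁻ x : V, (ball (0 : V) s₀).indicator (fun _ => (1 : ℝ≥0∞)) x := by
        rw [lintegral_indicator measurableSet_ball]; simp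
    _ ≤ _ := by
        apply lintegral_mono
        intro x
        by_cases hx : x ∈ ball (0 : V) s₀
        · rw [indicator_of_mem hx]
          rw [mem_ball_zero_iff] at hx
          simp only
          rw [cut_one h0 h1 hx.le]
          simp
        · rw [indicator_of_notMem hx]
          exact zero_le

lemma Filling.lint {k : ℕ} {φ : Fin k → V → V} {r₀ r₁ s₀ s₁ : ℝ} {F : Fin k → V → ℝ}
    (hF : Filling φ r₀ r₁ s₀ s₁ F) (h0 : 0 < s₀) (h1 : s₀ < s₁) (i : Fin k) :
    ∫⁻ x, ENNReal.ofReal (F i x) = ∫⁻ x : V, ENNReal.ofReal (cut s₀ s₁ x) := by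
  rw [← ofReal_integral_eq_lintegral_ofReal, ← ofReal_integral_eq_lintegral_ofReal, hF.int]
  · exact (contDiff_cut s₀ s₁).continuous.integrable_of_hasCompactSupport (hasCompactSupport_cut h0 h1)
  · exact Eventually.of_forall (cut_nonneg s₀ s₁)
  · exact (hF.cont i).integrable_of_hasCompactSupport (hF.cs i)
  · exact Eventually.of_forall (hF.nonneg i)

/-- A filling vanishes at every point outside the target whose component in the complement of
the target is unbounded or large. -/
lemma Filling.out {k : ℕ} {φ : Fin k → V → V} {r₀ r₁ s₀ s₁ : ℝ} {F : Fin k → V → ℝ}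
    (hF : Filling φ r₀ r₁ s₀ s₁ F) (h0 : 0 < s₀) (h1 : s₀ < s₁) {X : Set V}
    (hmaps : ∀ i, MapsTo (φ i) (shell V r₀ r₁) X) (i : Fin k) {x : V} (hx : x ∉ X)
    (hc : ¬ Bornology.IsBounded (connectedComponentIn Xᶜ x) ∨
      volume (ball (0 : V) s₁) < volume (connectedComponentIn Xᶜ x)) : F i x = 0 := by
  by_contra hne
  set Y := connectedComponentIn Xᶜ x with hY
  have hYX : Y ⊆ Xᶜ := connectedComponentIn_subset _ _
  have hxY : x ∈ Y := mem_connectedComponentIn hx
  have hpre : IsPreconnected Y := isPreconnected_connectedComponentIn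
  have hoff : ∀ y ∈ Y, F i y = 0 ∨ F i y = 1 := by
    intro y hy
    apply hF.off
    rintro ⟨z, hz, rfl⟩
    exact hYX hy (hmaps i hz)
  have hone : ∀ y ∈ Y, F i y = 1 := by
    by_contra hcon
    push Not at hcon
    obtain ⟨y, hy, hy1⟩ := hcon
    have hy0 : F i y = 0 := (hoff y hy).resolve_right hy1
    have hx1 : F i x = 1 := (hoff x hxY).resolve_left hne
    have := hpre.intermediate_value hy hxY (hF.cont i).continuousOn
    have hmem : (1 / 2 : ℝ) ∈ Icc (F i y) (F i x) := by rw [hy0, hx1]; constructor <;> norm_num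
    obtain ⟨w, hw, hgw⟩ := this hmem
    rcases hoff w hw with h | h
    · rw [h] at hgw; norm_num at hgw
    · rw [h] at hgw; norm_num at hgw
  rcases hc with hc | hc
  · apply hc
    refine (hF.cs i).isCompact.isBounded.subset ?_
    intro y hy
    apply subset_tsupport
    rw [Function.mem_support, hone y hy]
    exact one_ne_zero
  · have h2 : volume Y ≤ ∫⁻ x, ENNReal.ofReal (F i x) := by
      have hSc : IsClosed {y | F i y = 1} := isClosed_eq (hF.cont i) continuous_const
      calc volume Y ≤ volume {y | F i y = 1} := measure_mono hone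
        _ = ∫⁻ x, ({y | F i y = 1} : Set V).indicator (fun _ => (1 : ℝ≥0∞)) x := by
            rw [lintegral_indicator hSc.measurableSet]; simp
        _ ≤ _ := by
            apply lintegral_mono
            intro y
            by_cases hy : y ∈ {y | F i y = 1}
            · rw [indicator_of_mem hy]
              simp only
              rw [hy]; simp
            · rw [indicator_of_notMem hy]
              exact zero_le
    rw [hF.lint h0 h1] at h2
    exact absurd (h2.trans (lint_cut_le h0 h1)) (not_le.2 hc)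

/-- **The volume bound.**  Let `N` be a set such that every point outside `N` is outside the
target `X`, and its component in the complement of `X` is unbounded or at least as large as the
ball of radius `r₁`.  Then `k` disjoint symplectically embedded shells in `X` of outer radius
`r₁` satisfy `k |B(r₁)| ≤ |N|`. -/
theorem volume_bound {J : V →L[ℝ] V} (hJ : IsJ J) (hdim : 3 ≤ Module.finrank ℝ V) {k : ℕ}
    {φ : Fin k → V → V} {r₀ r₁ : ℝ} (h0 : 0 < r₀) (h1 : r₀ < r₁)
    (hφ : ∀ i, ContDiffOn ℝ ∞ (φ i) (shell V r₀ r₁)) (hinj : ∀ i, InjOn (φ i) (shell V r₀ r₁))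
    (hs : ∀ i, SympOn J (φ i) (shell V r₀ r₁)) {X N : Set V}
    (hmaps : ∀ i, MapsTo (φ i) (shell V r₀ r₁) X)
    (hd : ∀ i j, i ≠ j → Disjoint (φ i '' shell V r₀ r₁) (φ j '' shell V r₀ r₁))
    (hN : ∀ x, x ∉ N → x ∉ X ∧ (¬ Bornology.IsBounded (connectedComponentIn Xᶜ x) ∨
      volume (ball (0 : V) r₁) ≤ volume (connectedComponentIn Xᶜ x))) :
    (k : ℝ≥0∞) * volume (ball (0 : V) r₁) ≤ volume N := by
  have hnt : Nontrivial V := Module.nontrivial_of_finrank_pos (R := ℝ) (by omega)
  have hBfin : volume (ball (0 : V) 1) ≠ ⊤ := measure_ball_lt_top.ne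
  have hB0 : volume (ball (0 : V) 1) ≠ 0 := (measure_ball_pos volume (0 : V) one_pos).ne'
  have hvol : ∀ s : ℝ, 0 < s → volume (ball (0 : V) s) =
      ENNReal.ofReal (s ^ Module.finrank ℝ V) * volume (ball (0 : V) 1) :=
    fun s hs => Measure.addHaar_ball volume (0 : V) hs.le
  have key : ∀ s₀ ∈ Ioo r₀ r₁, (k : ℝ≥0∞) * volume (ball (0 : V) s₀) ≤ volume N := by
    rintro s₀ ⟨h01, h12⟩
    have hs0 : 0 < s₀ := by linarith
    set s₁ := (s₀ + r₁) / 2 with hs1
    have a1 : s₀ < s₁ := by rw [hs1]; linarith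
    have a2 : s₁ < r₁ := by rw [hs1]; linarith
    obtain ⟨F, hF⟩ := exists_filling hJ hdim h0 h01 a1 a2 hφ hinj hs hd
    have hlt : volume (ball (0 : V) s₁) < volume (ball (0 : V) r₁) := by
      rw [hvol s₁ (by linarith), hvol r₁ (by linarith)]
      refine (ENNReal.mul_lt_mul_iff_left hB0 hBfin).2 ?_
      rw [ENNReal.ofReal_lt_ofReal_iff (pow_pos (by linarith) _)]
      exact pow_lt_pow_left₀ a2 (by linarith) (by omega)
    have hout : ∀ i x, x ∉ N → F i x = 0 := by
      intro i x hx
      obtain ⟨hx1, hx2⟩ := hN x hx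
      refine hF.out hs0 a1 hmaps i hx1 ?_
      rcases hx2 with h | h
      · exact Or.inl h
      · exact Or.inr (hlt.trans_le h)
    set S : Set V := {x | ∃ i, F i x ≠ 0} with hS
    have hSo : IsOpen S := by
      have : S = ⋃ i, {x | F i x ≠ 0} := by ext x; simp [hS]
      rw [this]
      exact isOpen_iUnion fun i => isOpen_ne_fun (hF.cont i) continuous_const
    have hSN : S ⊆ N := by
      rintro x ⟨i, hi⟩
      by_contra hx
      exact hi (hout i x hx)
    have hsum : ∀ x, ∑ i, ENNReal.ofReal (F i x) ≤ S.indicator (fun _ => (1 : ℝ≥0∞)) x := by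
      intro x
      by_cases hx : x ∈ S
      · rw [indicator_of_mem hx]
        obtain ⟨i, hi⟩ := hx
        rw [Finset.sum_eq_single i]
        · simpa using ENNReal.ofReal_le_ofReal (hF.le_one i x)
        · intro j _ hji
          rw [(hF.dis j i hji x).resolve_right hi]; simp
        · intro h; exact absurd (Finset.mem_univ i) h
      · rw [indicator_of_notMem hx]
        rw [Finset.sum_eq_zero]
        intro i _
        have : F i x = 0 := by
          by_contra h
          exact hx ⟨i, h⟩
        rw [this]; simp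
    calc (k : ℝ≥0∞) * volume (ball (0 : V) s₀)
        ≤ k * ∫⁻ x : V, ENNReal.ofReal (cut s₀ s₁ x) := by gcongr; exact le_lint_cut hs0 a1
      _ = ∑ i : Fin k, ∫⁻ x, ENNReal.ofReal (F i x) := by
          simp only [hF.lint hs0 a1]; simp
      _ = ∫⁻ x, ∑ i : Fin k, ENNReal.ofReal (F i x) := by
          rw [lintegral_finsetSum]
          intro i _
          exact ((hF.cont i).measurable).ennreal_ofReal
      _ ≤ ∫⁻ x, S.indicator (fun _ => (1 : ℝ≥0∞)) x := lintegral_mono hsum
      _ = volume S := by rw [lintegral_indicator hSo.measurableSet]; simp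
      _ ≤ volume N := measure_mono hSN
  have hcont : Continuous (fun s : ℝ =>
      (k : ℝ≥0∞) * (ENNReal.ofReal (s ^ Module.finrank ℝ V) * volume (ball (0 : V) 1))) := by
    refine ENNReal.continuous_const_mul (by simp) |>.comp ?_
    refine (ENNReal.continuous_mul_const hBfin).comp ?_
    exact ENNReal.continuous_ofReal.comp (continuous_pow _)
  have hclos : r₁ ∈ closure (Ioo r₀ r₁) := by
    rw [closure_Ioo h1.ne]; exact ⟨h1.le, le_rfl⟩
  have hsub : closure (Ioo r₀ r₁) ⊆ {s | (k : ℝ≥0∞) *
      (ENNReal.ofReal (s ^ Module.finrank ℝ V) * volume (ball (0 : V) 1)) ≤ volume N} := by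
    refine closure_minimal ?_ (isClosed_le hcont continuous_const)
    intro s hs
    have := key s hs
    rwa [hvol s (h0.trans hs.1)] at this
  have := hsub hclos
  rw [hvol r₁ (h0.trans h1)]
  exact this

end Pool.Agent.Y267.SP
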